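import Mathlib

set_option autoImplicit false
set_option linter.unusedSectionVars false
set_option linter.style.haveILetI false

namespace Pool.Agent.Results.MP_4aedba_al.NonComplete

open Filter Topology

universe u v

/-- `τ` is a ring topology on `R`: subtraction and multiplication are continuous from `R × R`
(with the product topology) to `R`. -/
def IsRingTopology {R : Type u} [Ring R] (τ : TopologicalSpace R) : Prop :=
  @Continuous (R × R) R (@instTopologicalSpaceProd R R τ τ) τ (fun p => p.1 - p.2) ∧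
  @Continuous (R × R) R (@instTopologicalSpaceProd R R τ τ) τ (fun p => p.1 * p.2)

/-- `τ` is a maximal ring topology on `R`: a non-discrete Hausdorff ring topology such that no
non-discrete Hausdorff ring topology on `R` is strictly finer (every non-discrete Hausdorff ring
topology `σ` in which all `τ`-open sets are open equals `τ`). -/
def IsMaximalRingTopology {R : Type u} [Ring R] (τ : TopologicalSpace R) : Prop :=
  IsRingTopology τ ∧ @T2Space R τ ∧ ¬ @DiscreteTopology R τ ∧
  ∀ σ : TopologicalSpace R, IsRingTopology σ → @T2Space R σ → ¬ @DiscreteTopology R σ →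
    (∀ U : Set R, @IsOpen R τ U → @IsOpen R σ U) → σ = τ

/-- `(R, τ)` is complete: every Cauchy filter (for the additive uniformity) converges. -/
def IsCompleteRing {R : Type u} [Ring R] (τ : TopologicalSpace R) : Prop :=
  ∀ F : Filter R, F.NeBot →
    (∀ U ∈ @nhds R τ 0, ∃ A ∈ F, ∀ x ∈ A, ∀ y ∈ A, x - y ∈ U) → ∃ x : R, F ≤ @nhds R τ x

/-! ### The triangular ring -/

/-- The set of triples `(s, m, c)` with `s ∈ S`, `m ∈ M`, `c ∈ ℤ`, thought of as the triangular
matrices with rows `(s, m)` and `(0, c)`. -/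
@[ext] structure Tri (S : Type u) (M : Type v) : Type (max u v) where
  s : S
  m : M
  c : ℤ

namespace Tri

variable {S : Type u} {M : Type v} [Ring S] [AddCommGroup M] [Module S M]

instance : Add (Tri S M) := ⟨fun x y => ⟨x.s + y.s, x.m + y.m, x.c + y.c⟩⟩

instance : Neg (Tri S M) := ⟨fun x => ⟨-x.s, -x.m, -x.c⟩⟩

instance : Mul (Tri S M) := ⟨fun x y => ⟨x.s * y.s, x.s • y.m + y.c • x.m, x.c * y.c⟩⟩

instance : Zero (Tri S M) := ⟨⟨0, 0, 0⟩⟩

instance : One (Tri S M) := ⟨⟨1, 0, 1⟩⟩

@[simp] lemma add_s (x y : Tri S M) : (x + y).s = x.s + y.s := rfl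
@[simp] lemma add_m (x y : Tri S M) : (x + y).m = x.m + y.m := rfl
@[simp] lemma add_c (x y : Tri S M) : (x + y).c = x.c + y.c := rfl
@[simp] lemma neg_s (x : Tri S M) : (-x).s = -x.s := rfl
@[simp] lemma neg_m (x : Tri S M) : (-x).m = -x.m := rfl
@[simp] lemma neg_c (x : Tri S M) : (-x).c = -x.c := rfl
@[simp] lemma mul_s (x y : Tri S M) : (x * y).s = x.s * y.s := rfl
@[simp] lemma mul_m (x y : Tri S M) : (x * y).m = x.s • y.m + y.c • x.m := rfl
@[simp] lemma mul_c (x y : Tri S M) : (x * y).c = x.c * y.c := rfl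
@[simp] lemma zero_s : (0 : Tri S M).s = 0 := rfl
@[simp] lemma zero_m : (0 : Tri S M).m = 0 := rfl
@[simp] lemma zero_c : (0 : Tri S M).c = 0 := rfl
@[simp] lemma one_s : (1 : Tri S M).s = 1 := rfl
@[simp] lemma one_m : (1 : Tri S M).m = 0 := rfl
@[simp] lemma one_c : (1 : Tri S M).c = 1 := rfl

instance : AddCommGroup (Tri S M) where
  add_assoc := by intro x y z; ext <;> simp [add_assoc]
  zero_add := by intro x; ext <;> simp
  add_zero := by intro x; ext <;> simp
  neg_add_cancel := by intro x; ext <;> simp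
  add_comm := by intro x y; ext <;> simp [add_comm]
  nsmul := nsmulRec
  zsmul := zsmulRec

instance : Ring (Tri S M) where
  mul_assoc := by
    intro x y z
    ext
    · simp [mul_assoc]
    · simp only [mul_m, mul_s, mul_c, smul_add, mul_smul, add_assoc]
      rw [smul_comm x.s z.c y.m, smul_comm y.c z.c x.m]
    · simp [mul_assoc]
  one_mul := by intro x; ext <;> simp
  mul_one := by intro x; ext <;> simp
  zero_mul := by intro x; ext <;> simp
  mul_zero := by intro x; ext <;> simp
  left_distrib := by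
    intro x y z
    ext
    · simp [mul_add]
    · simp only [mul_m, add_m, add_c, smul_add, add_smul]; abel
    · simp [mul_add]
  right_distrib := by
    intro x y z
    ext
    · simp [add_mul]
    · simp only [mul_m, add_m, add_s, smul_add, add_smul]; abel
    · simp [add_mul]
  zsmul := zsmulRec
  neg_add_cancel := by intro x; ext <;> simp

@[simp] lemma sub_s (x y : Tri S M) : (x - y).s = x.s - y.s := by rw [sub_eq_add_neg x y]; simp [sub_eq_add_neg]
@[simp] lemma sub_m (x y : Tri S M) : (x - y).m = x.m - y.m := by rw [sub_eq_add_neg x y]; simp [sub_eq_add_neg]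
@[simp] lemma sub_c (x y : Tri S M) : (x - y).c = x.c - y.c := by rw [sub_eq_add_neg x y]; simp [sub_eq_add_neg]

end Tri

/-! ### General facts on ring topologies -/

section General

variable {R : Type u} [Ring R]

lemma IsRingTopology.isTopologicalAddGroup {τ : TopologicalSpace R} (h : IsRingTopology τ) :
    @IsTopologicalAddGroup R τ _ := by
  letI := τ
  have hs : Continuous (fun p : R × R => p.1 - p.2) := h.1
  have hn : Continuous (fun x : R => -x) := by
    have : Continuous (fun x : R => ((0 : R), x)) := by fun_prop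
    simpa [Function.comp_def] using hs.comp this
  have ha : Continuous (fun p : R × R => p.1 + p.2) := by
    have : Continuous (fun p : R × R => (p.1, -p.2)) := by fun_prop
    simpa [Function.comp_def, sub_eq_add_neg] using hs.comp this
  exact { continuous_add := ha, continuous_neg := hn }

lemma IsRingTopology.continuous_mul_left {τ : TopologicalSpace R} (h : IsRingTopology τ) (a : R) :
    @Continuous R R τ τ (fun x => a * x) := by
  letI := τ
  have hm : Continuous (fun p : R × R => p.1 * p.2) := h.2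
  have : Continuous (fun x : R => (a, x)) := by fun_prop
  exact hm.comp this

/-- The infimum in Mathlib's order (the supremum as collections of open sets) of ring topologies
is a ring topology. -/
lemma isRingTopology_sInf {c : Set (TopologicalSpace R)} (hc : ∀ τ ∈ c, IsRingTopology τ) :
    IsRingTopology (sInf c) := by
  have hprod : ∀ τ ∈ c, @instTopologicalSpaceProd R R (sInf c) (sInf c) ≤
      @instTopologicalSpaceProd R R τ τ := by
    intro τ hτ
    have := sInf_le hτ
    exact inf_le_inf (induced_mono this) (induced_mono this)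
  constructor
  · rw [continuous_sInf_rng]
    intro τ hτ
    exact continuous_le_dom (hprod τ hτ) (hc τ hτ).1
  · rw [continuous_sInf_rng]
    intro τ hτ
    exact continuous_le_dom (hprod τ hτ) (hc τ hτ).2

lemma discrete_of_singleton_mem {τ : TopologicalSpace R} (h : IsRingTopology τ) (z : R)
    (h0 : ({z} : Set R) ∈ @nhds R τ z) : @DiscreteTopology R τ := by
  letI := τ
  haveI := h.isTopologicalAddGroup
  have h1 : Tendsto (fun r : R => z + r) (𝓝 0) (𝓝 z) := by
    have h2 : Continuous (fun r : R => z + r) := by fun_prop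
    have := h2.tendsto 0
    rwa [add_zero] at this
  rw [discreteTopology_iff_isOpen_singleton_zero]
  rw [isOpen_iff_mem_nhds]
  intro x hx
  rw [Set.mem_singleton_iff] at hx
  subst hx
  filter_upwards [h1 h0] with r hr
  rw [Set.mem_preimage, Set.mem_singleton_iff] at hr
  rw [Set.mem_singleton_iff]
  simpa using hr

/-- Small differences. -/
lemma exists_small {τ : TopologicalSpace R} (hτ : IsRingTopology τ) (U : Set R)
    (hU : U ∈ @nhds R τ 0) : ∃ W ∈ @nhds R τ 0, ∀ a ∈ W, ∀ b ∈ W, a - b ∈ U := by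
  letI := τ
  have h0 : Continuous (fun p : R × R => p.1 - p.2) := hτ.1
  have h1 : Tendsto (fun p : R × R => p.1 - p.2) (𝓝 0 ×ˢ 𝓝 0) (𝓝 0) := by
    have := h0.tendsto (0, 0)
    rwa [nhds_prod_eq, sub_self] at this
  obtain ⟨W, hW, hWU⟩ := Filter.mem_prod_same_iff.mp (h1 hU)
  exact ⟨W, hW, fun a ha b hb => hWU (Set.mk_mem_prod ha hb)⟩

/-- Every non-discrete Hausdorff ring topology is contained in a maximal one. -/
lemma exists_maximal {τ₀ : TopologicalSpace R} (h0 : IsRingTopology τ₀) (hT2 : @T2Space R τ₀)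
    (hd : ¬ @DiscreteTopology R τ₀) :
    ∃ τ : TopologicalSpace R, τ ≤ τ₀ ∧ IsMaximalRingTopology τ := by
  classical
  let P : Set (TopologicalSpace R)ᵒᵈ :=
    {τ | IsRingTopology (OrderDual.ofDual τ) ∧ ¬ @DiscreteTopology R (OrderDual.ofDual τ)}
  have hz := zorn_le_nonempty₀ P ?_ (OrderDual.toDual τ₀) ⟨h0, hd⟩
  · obtain ⟨m, hm, hmax⟩ := hz
    refine ⟨OrderDual.ofDual m, hm, hmax.1.1, ?_, hmax.1.2, ?_⟩
    · exact t2Space_antitone hm hT2
    · intro σ hσ _ hσd hle
      have h1 : OrderDual.toDual σ ∈ P := ⟨hσ, hσd⟩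
      have h2 : m ≤ OrderDual.toDual σ := hle
      have h3 := hmax.2 h1 h2
      exact le_antisymm hle h3
  · intro c hcP hchain y hy
    refine ⟨OrderDual.toDual (sInf (OrderDual.ofDual '' c)), ⟨?_, ?_⟩, ?_⟩
    · apply isRingTopology_sInf
      rintro _ ⟨τ, hτ, rfl⟩
      exact (hcP hτ).1
    · intro hdisc
      have h1 : ({0} : Set R) ∈ @nhds R (sInf (OrderDual.ofDual '' c)) 0 := by
        have h2 : IsOpen[sInf (OrderDual.ofDual '' c)] ({0} : Set R) :=
          @isOpen_discrete R (sInf (OrderDual.ofDual '' c)) hdisc _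
        exact @IsOpen.mem_nhds R (sInf (OrderDual.ofDual '' c)) 0 {0} h2 rfl
      rw [nhds_sInf, Filter.mem_biInf_of_directed] at h1
      · obtain ⟨_, ⟨τ, hτ, rfl⟩, h2⟩ := h1
        exact (hcP hτ).2 (discrete_of_singleton_mem (hcP hτ).1 0 h2)
      · rintro _ ⟨τ, hτ, rfl⟩ _ ⟨τ', hτ', rfl⟩
        rcases hchain.total hτ hτ' with h | h
        · exact ⟨_, ⟨τ', hτ', rfl⟩, nhds_mono h, le_rfl⟩
        · exact ⟨_, ⟨τ, hτ, rfl⟩, le_rfl, nhds_mono h⟩
      · exact ⟨_, ⟨y, hy, rfl⟩⟩
    · intro z hz
      have h1 : sInf (OrderDual.ofDual '' c) ≤ OrderDual.ofDual z := sInf_le ⟨z, hz, rfl⟩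
      exact h1

end General

/-! ### The concrete ring -/

noncomputable section

/-- The vector space of countable dimension over the field with two elements. -/
abbrev V : Type := ℕ →₀ ZMod 2

/-- Its endomorphism ring. -/
abbrev E : Type := Module.End (ZMod 2) V

/-- The ring of the example: triangular matrices over `End V`, `V`, `ℤ`. -/
abbrev A : Type := Tri E V

/-- The embedding of `V` in `A`. -/
def emb (x : V) : A := ⟨0, x, 0⟩

/-- The element of `A` given by an endomorphism. -/
def ofEnd (f : E) : A := ⟨f, 0, 0⟩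

lemma ofEnd_mul_emb (f : E) (x : V) : ofEnd f * emb x = emb (f x) := by
  ext <;> simp [ofEnd, emb]

lemma emb_sub (x y : V) : emb (x - y) = emb x - emb y := by
  ext <;> simp [emb]

lemma emb_injective : Function.Injective emb := by
  intro x y h
  have := congrArg Tri.m h
  exact this

lemma emb_zero : emb 0 = 0 := rfl

/-- The basic neighbourhoods of zero for the starting topology. -/
def B (T : Finset (V →ₗ[ZMod 2] ZMod 2)) : AddSubgroup A where
  carrier := {r | r.s = 0 ∧ r.c = 0 ∧ ∀ f ∈ T, f r.m = 0}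
  zero_mem' := by simp
  add_mem' := by
    rintro x y ⟨h1, h2, h3⟩ ⟨h4, h5, h6⟩
    refine ⟨by simp [h1, h4], by simp [h2, h5], fun f hf => ?_⟩
    rw [Tri.add_m, map_add, h3 f hf, h6 f hf, add_zero]
  neg_mem' := by
    rintro x ⟨h1, h2, h3⟩
    refine ⟨by simp [h1], by simp [h2], fun f hf => ?_⟩
    rw [Tri.neg_m, map_neg, h3 f hf, neg_zero]

lemma mem_B {T : Finset (V →ₗ[ZMod 2] ZMod 2)} {r : A} :
    r ∈ B T ↔ r.s = 0 ∧ r.c = 0 ∧ ∀ f ∈ T, f r.m = 0 := Iff.rfl

lemma B_basis : RingSubgroupsBasis B where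
  inter T T' := by
    classical
    refine ⟨T ∪ T', ?_⟩
    rintro r ⟨h1, h2, h3⟩
    exact ⟨⟨h1, h2, fun f hf => h3 f (Finset.mem_union_left _ hf)⟩,
      ⟨h1, h2, fun f hf => h3 f (Finset.mem_union_right _ hf)⟩⟩
  mul T := by
    refine ⟨T, ?_⟩
    rintro _ ⟨x, ⟨h1, h2, h3⟩, y, ⟨h4, h5, h6⟩, rfl⟩
    refine ⟨?_, ?_, fun f _ => ?_⟩
    · change (x * y).s = 0
      rw [Tri.mul_s, h1, zero_mul]
    · change (x * y).c = 0
      rw [Tri.mul_c, h2, zero_mul]
    · change f (x * y).m = 0
      rw [Tri.mul_m, h1, h5, zero_smul, zero_smul, add_zero, map_zero]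
  leftMul x T := by
    classical
    refine ⟨T.image (fun f => f.comp x.s), ?_⟩
    rintro y ⟨h1, h2, h3⟩
    refine ⟨?_, ?_, fun f hf => ?_⟩
    · change (x * y).s = 0
      rw [Tri.mul_s, h1, mul_zero]
    · change (x * y).c = 0
      rw [Tri.mul_c, h2, mul_zero]
    · change f (x * y).m = 0
      rw [Tri.mul_m, h2, zero_smul, add_zero]
      exact h3 _ (Finset.mem_image_of_mem _ hf)
  rightMul x T := by
    refine ⟨T, ?_⟩
    rintro y ⟨h1, h2, h3⟩
    refine ⟨?_, ?_, fun f hf => ?_⟩
    · change (y * x).s = 0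
      rw [Tri.mul_s, h1, zero_mul]
    · change (y * x).c = 0
      rw [Tri.mul_c, h2, zero_mul]
    · change f (y * x).m = 0
      rw [Tri.mul_m, h1, zero_smul, zero_add, map_zsmul, h3 f hf, smul_zero]

/-- The starting topology. -/
abbrev τ₀ : TopologicalSpace A := B_basis.topology

lemma isRingTopology_τ₀ : IsRingTopology τ₀ := by
  letI := τ₀
  haveI : IsTopologicalRing A := B_basis.toRingFilterBasis.isTopologicalRing
  exact ⟨continuous_sub, this.toIsTopologicalSemiring.toContinuousMul.continuous_mul⟩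

lemma B_mem_nhds (T : Finset (V →ₗ[ZMod 2] ZMod 2)) : (B T : Set A) ∈ @nhds A τ₀ 0 :=
  B_basis.hasBasis_nhds_zero.mem_of_mem trivial

lemma t2_τ₀ : @T2Space A τ₀ := by
  letI := τ₀
  haveI : IsTopologicalRing A := B_basis.toRingFilterBasis.isTopologicalRing
  apply IsTopologicalAddGroup.t2Space_of_zero_sep
  intro x hx
  by_cases h1 : x.s = 0 ∧ x.c = 0
  · have hm : x.m ≠ 0 := by
      intro h
      apply hx
      ext1
      · exact h1.1
      · exact h
      · exact h1.2
    obtain ⟨i, hi⟩ := Finsupp.ne_iff.mp hm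
    refine ⟨B {Finsupp.lapply i}, B_mem_nhds _, ?_⟩
    rintro ⟨_, _, h⟩
    exact hi (h _ (Finset.mem_singleton_self _))
  · refine ⟨B ∅, B_mem_nhds _, ?_⟩
    rintro ⟨h2, h3, _⟩
    exact h1 ⟨h2, h3⟩

lemma exists_ne_zero_mem (T : Finset (V →ₗ[ZMod 2] ZMod 2)) : ∃ x : V, x ≠ 0 ∧
    ∀ f ∈ T, f x = 0 := by
  obtain ⟨x, y, hne, hxy⟩ := Finite.exists_ne_map_eq_of_infinite
    (fun (x : V) (f : T) => (f : V →ₗ[ZMod 2] ZMod 2) x)
  refine ⟨x - y, sub_ne_zero.mpr hne, fun f hf => ?_⟩
  have := congrFun hxy ⟨f, hf⟩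
  rw [map_sub, sub_eq_zero]
  exact this

lemma not_discrete_τ₀ : ¬ @DiscreteTopology A τ₀ := by
  intro h
  have h1 : ({0} : Set A) ∈ @nhds A τ₀ 0 :=
    @IsOpen.mem_nhds A τ₀ 0 {0} (@isOpen_discrete A τ₀ h _) rfl
  obtain ⟨T, _, hT⟩ := B_basis.hasBasis_nhds_zero.mem_iff.mp h1
  obtain ⟨x, hx, hx2⟩ := exists_ne_zero_mem T
  have h2 : emb x ∈ (B T : Set A) := ⟨rfl, rfl, hx2⟩
  have h3 := hT h2
  exact hx (emb_injective (h3 : emb x = emb 0))

/-! ### Precompactness -/

/-- For a non-discrete ring topology finer than `τ₀`, every neighbourhood of zero has finitely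
many translates covering `V`. -/
lemma precompact {τ : TopologicalSpace A} (hτ : IsRingTopology τ) (hle : τ ≤ τ₀)
    (hd : ¬ @DiscreteTopology A τ) (U : Set A) (hU : U ∈ @nhds A τ 0) :
    ∃ F : Finset V, ∀ x : V, ∃ f ∈ F, emb (x - f) ∈ U := by
  classical
  by_contra hcon
  push Not at hcon
  choose g hg using hcon
  -- the finite subspaces
  let W : ℕ → Finset V := fun n => Nat.rec {0} (fun _ W => W ∪ W.image (fun w => w + g W)) n
  have hW0 : W 0 = {0} := rfl
  have hWs : ∀ n, W (n + 1) = W n ∪ (W n).image (fun w => w + g (W n)) := fun n => rfl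
  let x : ℕ → V := fun n => g (W n)
  let s : E := Finsupp.linearCombination (ZMod 2) x
  have hs1 : ∀ i, s (Finsupp.single i 1) = x i := by
    intro i; simp [s]
  have hsW : ∀ n, ∀ l : V, (∀ i, n ≤ i → l i = 0) → s l ∈ W n := by
    intro n
    induction n with
    | zero =>
      intro l hl
      have : l = 0 := by ext i; simp [hl i (Nat.zero_le _)]
      rw [this, map_zero, hW0]; exact Finset.mem_singleton_self _
    | succ n ih =>
      intro l hl
      set l' : V := l.erase n with hl'
      have hl'0 : ∀ i, n ≤ i → l' i = 0 := by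
        intro i hi
        rcases Nat.eq_or_lt_of_le hi with h | h
        · rw [hl', ← h]; simp
        · rw [hl', Finsupp.erase_ne (by omega)]; exact hl i h
      have hdec : l = Finsupp.single n (l n) + l' := (Finsupp.single_add_erase n l).symm
      have hl2 : l n = 0 ∨ l n = 1 := by
        have : ∀ z : ZMod 2, z = 0 ∨ z = 1 := by decide
        exact this _
      rw [hWs, Finset.mem_union]
      rcases hl2 with h | h
      · left
        rw [hdec, h, Finsupp.single_zero, zero_add]
        exact ih l' hl'0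
      · right
        rw [Finset.mem_image]
        refine ⟨s l', ih l' hl'0, ?_⟩
        conv_rhs => rw [hdec, h, map_add, hs1]
        rw [add_comm]
  have hinj : ∀ l : V, l ≠ 0 → emb (s l) ∉ U := by
    intro l hl
    have hne : l.support.Nonempty := Finsupp.support_nonempty_iff.mpr hl
    set n := l.support.max' hne with hn
    have hln : l n ≠ 0 := Finsupp.mem_support_iff.mp (l.support.max'_mem hne)
    have hl1 : l n = 1 := by
      have : ∀ z : ZMod 2, z ≠ 0 → z = 1 := by decide
      exact this _ hln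
    set l' : V := l.erase n with hl'
    have hl'0 : ∀ i, n ≤ i → l' i = 0 := by
      intro i hi
      rcases Nat.eq_or_lt_of_le hi with h | h
      · rw [hl', ← h]; simp
      · rw [hl', Finsupp.erase_ne (by omega)]
        by_contra h2
        have := l.support.le_max' i (Finsupp.mem_support_iff.mpr h2)
        omega
    have hdec : l = Finsupp.single n (l n) + l' := (Finsupp.single_add_erase n l).symm
    have h1 : s l = x n - s (-l') := by
      conv_lhs => rw [hdec, hl1, map_add, hs1]
      rw [map_neg, sub_neg_eq_add]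
    rw [h1]
    apply hg (W n)
    apply hsW n
    intro i hi
    rw [Finsupp.neg_apply, hl'0 i hi, neg_zero]
  apply hd
  apply discrete_of_singleton_mem hτ 0
  have h1 : (fun r => ofEnd s * r) ⁻¹' U ∈ @nhds A τ 0 := by
    have hc := hτ.continuous_mul_left (ofEnd s)
    have hc0 := @Continuous.tendsto A A τ τ _ hc 0
    have hz : ofEnd s * (0 : A) = 0 := mul_zero (ofEnd s)
    simp only [hz] at hc0
    exact hc0 hU
  have h2 : (B ∅ : Set A) ∈ @nhds A τ 0 := nhds_mono hle (B_mem_nhds ∅)
  filter_upwards [h1, h2] with r hr1 hr2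
  obtain ⟨h3, h4, _⟩ := hr2
  have hr : r = emb r.m := by
    ext1
    · exact h3
    · rfl
    · exact h4
  by_contra hne
  have hm : r.m ≠ 0 := by
    intro h; apply hne; rw [hr, h]; rfl
  apply hinj r.m hm
  rw [← ofEnd_mul_emb, ← hr]
  exact hr1

/-- Images of ultrafilters on `V` are Cauchy filters. -/
lemma cauchy_ultrafilter {τ : TopologicalSpace A} (hτ : IsRingTopology τ) (hle : τ ≤ τ₀)
    (hd : ¬ @DiscreteTopology A τ) (f : Ultrafilter V) (U : Set A) (hU : U ∈ @nhds A τ 0) :
    ∃ K ∈ Filter.map emb (f : Filter V), ∀ x ∈ K, ∀ y ∈ K, x - y ∈ U := by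
  obtain ⟨W, hW, hWU⟩ := exists_small hτ U hU
  obtain ⟨F, hF⟩ := precompact hτ hle hd W hW
  have h2 : (⋃ y ∈ (F : Set V), {z : V | emb (z - y) ∈ W}) ∈ f := by
    have : (⋃ y ∈ (F : Set V), {z : V | emb (z - y) ∈ W}) = Set.univ := by
      rw [Set.eq_univ_iff_forall]
      intro z
      obtain ⟨y, hy, hz⟩ := hF z
      simp only [Set.mem_iUnion]
      exact ⟨y, hy, hz⟩
    rw [this]; exact Filter.univ_mem
  rw [Ultrafilter.finite_biUnion_mem_iff F.finite_toSet] at h2
  obtain ⟨y, _, hy⟩ := h2
  refine ⟨emb '' {z : V | emb (z - y) ∈ W}, Filter.image_mem_map hy, ?_⟩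
  rintro _ ⟨a, ha, rfl⟩ _ ⟨b, hb, rfl⟩
  have h3 : emb a - emb b = emb (a - y) - emb (b - y) := by
    rw [← emb_sub, ← emb_sub]; congr 1; abel
  rw [h3]
  exact hWU _ ha _ hb

lemma emb_mem (x : V) : emb x ∈ (B ∅ : Set A) := ⟨rfl, rfl, by simp⟩

lemma eq_emb (r : A) (hr : r ∈ (B ∅ : Set A)) : r = emb r.m := by
  obtain ⟨h3, h4, _⟩ := hr
  ext1
  · exact h3
  · rfl
  · exact h4

/-- A non-discrete Hausdorff ring topology finer than `τ₀` is not complete. -/
lemma not_complete {τ : TopologicalSpace A} (hτ : IsRingTopology τ) (hT2 : @T2Space A τ)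
    (hle : τ ≤ τ₀) (hd : ¬ @DiscreteTopology A τ) : ¬ IsCompleteRing τ := by
  intro hc
  letI := τ
  haveI := hτ.isTopologicalAddGroup
  have hB : (B ∅ : Set A) ∈ 𝓝 (0 : A) := nhds_mono hle (B_mem_nhds ∅)
  have hBopen : IsOpen (B ∅ : Set A) := AddSubgroup.isOpen_of_mem_nhds (B ∅) hB
  have hBclosed : IsClosed (B ∅ : Set A) := AddSubgroup.isClosed_of_isOpen (B ∅) hBopen
  letI tV : TopologicalSpace V := TopologicalSpace.induced emb τ
  have hind : Topology.IsInducing emb := ⟨rfl⟩
  have hembd : Topology.IsEmbedding emb := ⟨hind, emb_injective⟩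
  haveI : T2Space V := hembd.t2Space
  haveI hcomp : CompactSpace V := by
    constructor
    rw [isCompact_iff_ultrafilter_le_nhds]
    intro f _
    obtain ⟨x, hx⟩ := hc (Filter.map emb (f : Filter V)) inferInstance
      (cauchy_ultrafilter hτ hle hd f)
    have hxB : x ∈ (B ∅ : Set A) :=
      hBclosed.mem_of_tendsto (f := emb) (b := (f : Filter V)) hx
        (Filter.Eventually.of_forall emb_mem)
    refine ⟨x.m, Set.mem_univ _, ?_⟩
    rw [hind.nhds_eq_comap, ← eq_emb x hxB]
    exact Filter.map_le_iff_le_comap.mp hx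
  have hcl : ∀ m : V, IsClosed ({m} : Set V) := fun m => isClosed_singleton
  have hun : (⋃ m : V, ({m} : Set V)) = Set.univ := by
    rw [Set.eq_univ_iff_forall]; intro z; simp
  obtain ⟨m, hm⟩ := nonempty_interior_of_iUnion_of_closed hcl hun
  obtain ⟨z, hz⟩ := hm
  have hz1 : z ∈ ({m} : Set V) := interior_subset hz
  rw [Set.mem_singleton_iff] at hz1
  subst hz1
  rw [mem_interior_iff_mem_nhds, hind.nhds_eq_comap, Filter.mem_comap] at hz
  obtain ⟨O, hO, hOz⟩ := hz
  apply hd
  apply discrete_of_singleton_mem hτ (emb z)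
  filter_upwards [hO, hBopen.mem_nhds (emb_mem z)] with r hr1 hr2
  have h3 := eq_emb _ hr2
  have h4 : r.m ∈ ({z} : Set V) := hOz (by rw [Set.mem_preimage, ← h3]; exact hr1)
  rw [Set.mem_singleton_iff] at h4
  rw [Set.mem_singleton_iff, h3, h4]

end

/-- **Main theorem.** There is an associative ring (with identity) with a maximal ring topology
which is not complete. -/
theorem result : ∃ (R : Type) (_ : Ring R) (τ : TopologicalSpace R),
    IsMaximalRingTopology τ ∧ ¬ IsCompleteRing τ := by
  obtain ⟨τ, hle, hmax⟩ := exists_maximal isRingTopology_τ₀ t2_τ₀ not_discrete_τ₀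
  exact ⟨A, inferInstance, τ, hmax, not_complete hmax.1 hmax.2.1 hle hmax.2.2.1⟩

end Pool.Agent.Results.MP_4aedba_al.NonComplete
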